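import Pool.Agent.Q207.GH.Orb
import Pool.Agent.Q207.GH.Orb1
import Pool.Agent.Q207.GH.So4

/-!
# Hodge classes on almost all fibres of arbitrary families, times an arbitrary fixed variety

Which Hodge classes exist on `X_t^a × Z^b`, where `X_t` is an explicit fibre of a family over the rational line, `t` an integral
point, and `Z` is any smooth projective variety? We prove: for almost all `t` all of them are invariant up to a finite group
under the monodromy of the family (so they are Hodge classes on all fibres, and by Deligne's principle B they are absolute Hodge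
classes at `t` if and only if they are at one other point), and for families with full symplectic or orthogonal
monodromy they are combinations of products of flat classes and of Hodge classes of `Z`. For example, if all Hodge classes on
the powers of `Z` are absolute Hodge classes (`Z` an abelian variety) and the `X_t` are odd-dimensional hypersurfaces of a
Lefschetz pencil, all Hodge classes on `X_t^a × Z^b` are absolute Hodge classes for almost all integral `t`.
-/

set_option autoImplicit false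

open PowerSeries

namespace Pool.Agent.Results.MP_4e1cf2_ag.FamiliesTimesVarieties

/-! ### Families of G-functions -/

/-- an integer polynomial as a power series with rational coefficients -/
noncomputable def toQ (P : Polynomial ℤ) : PowerSeries ℚ := ((P.map (Int.castRingHom ℚ) : Polynomial ℚ) : PowerSeries ℚ)

/-- the power series `P(u^e)` -/
noncomputable def atPow (e : ℕ) (P : Polynomial ℤ) : PowerSeries ℂ :=
  ((Polynomial.expand ℂ e (P.map (Int.castRingHom ℂ)) : Polynomial ℂ) : PowerSeries ℂ)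

/-- the matrices `G_s` over `ℤ[x]` with `T^s y^(s) = G_s y` for all solutions `y` of `T y' = A y` -/
noncomputable def iter {r : ℕ} (T : Polynomial ℤ) (A : Fin r → Fin r → Polynomial ℤ) : ℕ → Fin r → Fin r → Polynomial ℤ
  | 0 => fun i j => if i = j then 1 else 0
  | s + 1 => fun i j => T * Polynomial.derivative (iter T A s i j) + ∑ l, iter T A s i l * A l j -
      (s : Polynomial ℤ) * (Polynomial.derivative T * iter T A s i j)

/-- The system `T y' = A y` has a fundamental matrix of solutions of the form `u^(-M) ∑_n Φ_n(u) (log u)^n` with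
`u^e = x` and convergent power series `Φ_n`: the point `0` is regular or a regular singularity with rational
exponents. -/
def QuasiUnipotent {r : ℕ} (T : Polynomial ℤ) (A : Fin r → Fin r → Polynomial ℤ) : Prop :=
  ∃ (e M : ℕ) (K : ℝ) (Φ : Matrix (Fin r) (Fin r) (Polynomial (PowerSeries ℂ))), 1 ≤ e ∧ Φ.det ≠ 0 ∧
    (∀ i j n m, ‖coeff m ((Φ i j).coeff n)‖ ≤ K ^ (m + 1)) ∧
    ∀ i j n, atPow e T * (X * PowerSeries.derivative ℂ ((Φ i j).coeff n) +
        ((n : PowerSeries ℂ) + 1) * (Φ i j).coeff (n + 1) - (M : PowerSeries ℂ) * (Φ i j).coeff n) =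
      (e : PowerSeries ℂ) * X ^ e * ∑ l, atPow e (A i l) * (Φ l j).coeff n

/-- `h_1, ..., h_r` are G-functions with rational coefficients which solve the differential system `T y' = A y`, with
the conditions of Siegel and Galochkin, and `0` is a regular point or a regular singularity with rational exponents of
the system. -/
structure GFamily {r : ℕ} (T : Polynomial ℤ) (A : Fin r → Fin r → Polynomial ℤ) (h : Fin r → PowerSeries ℚ) : Prop where
  /-- the denominator is not zero -/
  T_ne : T ≠ 0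
  /-- the differential equations -/
  ode : ∀ i, toQ T * PowerSeries.derivative ℚ (h i) = ∑ j, toQ (A i j) * h j
  /-- the coefficients have geometric growth -/
  size : ∃ C : ℝ, ∀ i m, |((coeff m (h i) : ℚ) : ℝ)| ≤ C ^ (m + 1)
  /-- the common denominators of the coefficients have geometric growth -/
  den : ∃ C : ℝ, ∀ m : ℕ, ∃ d : ℕ, 0 < d ∧ (d : ℝ) ≤ C ^ (m + 1) ∧ ∀ i, ∀ j ≤ m, ∃ a : ℤ, (d : ℚ) * coeff j (h i) = a
  /-- Galochkin's condition: the common denominators of the matrices `G_s / s!` have geometric growth -/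
  galochkin : ∃ C : ℝ, ∀ m : ℕ, ∃ d : ℕ, 0 < d ∧ (d : ℝ) ≤ C ^ (m + 1) ∧ ∀ s ≤ m, ∀ i j,
    ∃ H : Polynomial ℤ, (d : Polynomial ℤ) * iter T A s i j = (s.factorial : Polynomial ℤ) * H
  /-- the local exponents at `0` are rational and the singularity is regular -/
  regular : QuasiUnipotent T A

/-! ### Period matrices and their symmetries -/

section family
variable {r n : ℕ}

/-- The period matrix at `x = 1 / s`: the entries are the polynomials `P a b` in `log s` and in the `h_l(1 / s)`. The rows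
belong to a basis of the rational homology, the columns to a basis of the de Rham cohomology. -/
noncomputable def perMat (h : Fin r → PowerSeries ℚ) (P : Fin n → Fin n → MvPolynomial (Option (Fin r)) ℂ) (s : ℝ) :
    Matrix (Fin n) (Fin n) ℂ :=
  Matrix.of fun a b => MvPolynomial.aeval (fun o : Option (Fin r) => o.elim ((Real.log s : ℝ) : ℂ)
    fun l => ((∑' m : ℕ, ((coeff m (h l) : ℚ) : ℝ) * (1 / s) ^ m : ℝ) : ℂ)) (P a b)

/-- the value at `x = 1 / s` and at the matrix `Z` of a polynomial in the entries of a matrix over `ℂ[x]` -/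
noncomputable def relAt (R : MvPolynomial (Fin n × Fin n) (Polynomial ℂ)) (s : ℝ) (Z : Matrix (Fin n) (Fin n) ℂ) : ℂ :=
  MvPolynomial.eval₂ (Polynomial.evalRingHom (1 / (s : ℂ))) (fun v => Z v.1 v.2) R

/-- `g P(x)` satisfies all polynomial relations over `ℂ[x]` which `P(x)` satisfies. -/
def Preserves (h : Fin r → PowerSeries ℚ) (P : Fin n → Fin n → MvPolynomial (Option (Fin r)) ℂ)
    (g : Matrix (Fin n) (Fin n) ℂ) : Prop :=
  ∀ R : MvPolynomial (Fin n × Fin n) (Polynomial ℂ), (∀ᶠ s : ℝ in Filter.atTop, relAt R s (perMat h P s) = 0) →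
    ∀ᶠ s : ℝ in Filter.atTop, relAt R s (g * perMat h P s) = 0

/-- The rational matrices `γ` such that `γ` and `γ⁻¹` preserve the relations: the rational points of the differential Galois
group of the period matrix. In particular the monodromy group is contained in it, because the relations are preserved
by analytic continuation. -/
def IsSymmetry (h : Fin r → PowerSeries ℚ) (P : Fin n → Fin n → MvPolynomial (Option (Fin r)) ℂ)
    (γ : Matrix (Fin n) (Fin n) ℚ) : Prop :=
  IsUnit γ.det ∧ Preserves h P (γ.map fun x : ℚ => (x : ℂ)) ∧ Preserves h P (γ⁻¹.map fun x : ℚ => (x : ℂ))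

end family

/-! ### Hodge structures -/

/-- A real Hodge structure on `ℂ^I`, without weights: `ℂ^I` is the direct sum of the spaces `H p`, and the complex
conjugate of `H p` is `H (-p)`. For a Hodge structure (of one or of several weights) `H p` is the sum of the spaces
`H^{a, b}` with `a - b = p`. -/
structure IsHodge {I : Type} (H : ℤ → Submodule ℂ (I → ℂ)) : Prop where
  sum : DirectSum.IsInternal H
  conj : ∀ p, ∀ v ∈ H p, (fun a => (starRingEnd ℂ) (v a)) ∈ H (-p)

/-- `H` is the Hodge structure with the period matrix `Z` (rows: Betti, columns: de Rham): the steps of the Hodge filtration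
are spanned by the columns `x` with level `lev x ≥ p`; the level of a de Rham class of degree `w` in `F^a`, not in
`F^(a+1)`, is `a - (w - a)`. -/
structure IsFibre {I : Type} (lev : I → ℤ) (Z : Matrix I I ℂ) (H : ℤ → Submodule ℂ (I → ℂ)) : Prop where
  hodge : IsHodge H
  fil : ∀ p : ℤ, (⨆ q : {q : ℤ // p ≤ q}, H q) = Submodule.span ℂ {v | ∃ x, p ≤ lev x ∧ v = Z.transpose x}

/-- The Hodge operator is the multiplication by `p` on `H p`; it is the derivative of the action of the circle. Matrices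
act on row vectors from the right. -/
def IsOperator {I : Type} [Fintype I] (H : ℤ → Submodule ℂ (I → ℂ)) (Φ : Matrix I I ℂ) : Prop :=
  ∀ p, ∀ v ∈ H p, Matrix.vecMul v Φ = (p : ℂ) • v

/-- The direct sum of two Hodge structures. -/
def oplus {I J : Type} (H : ℤ → Submodule ℂ (I → ℂ)) (H' : ℤ → Submodule ℂ (J → ℂ)) (p : ℤ) : Submodule ℂ (I ⊕ J → ℂ) :=
  (H p).comap (LinearMap.funLeft ℂ ℂ Sum.inl) ⊓ (H' p).comap (LinearMap.funLeft ℂ ℂ Sum.inr)

/-- The action of a matrix as a derivation on the tensors `u ∈ (R^I)^{⊗ q}`; tensors are given by their coordinates, and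
matrices act on row vectors from the right. -/
def act {R I : Type} [CommRing R] [Fintype I] {q : ℕ} (X : Matrix I I R) (u : (Fin q → I) → R) : (Fin q → I) → R :=
  fun p => ∑ l, ∑ y, u (Function.update p l y) * X y (p l)

/-- The rational tensor `u ∈ V^{⊗ q}`, `V = ℚ^I` with the Hodge structure `H`, is a Hodge class: it is of the type `(m, m)`,
up to weights, that is, it is killed by the Hodge operator. -/
def IsHodgeClass {I : Type} [Fintype I] (H : ℤ → Submodule ℂ (I → ℂ)) {q : ℕ} (u : (Fin q → I) → ℚ) : Prop :=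
  ∀ Φ, IsOperator H Φ → act Φ (fun p => ((u p : ℚ) : ℂ)) = 0

/-- The sesquilinear form `v S conj(w)` polarises the Hodge structure, for example `S` is the real matrix of a polarisation:
the spaces `H p` are orthogonal, and the form `i^p v S conj(v)` is real and positive on `H p`, `v ≠ 0`. -/
structure Polarises {I : Type} [Fintype I] (S : Matrix I I ℂ) (H : ℤ → Submodule ℂ (I → ℂ)) : Prop where
  orth : ∀ p q, p ≠ q → ∀ v ∈ H p, ∀ w ∈ H q, dotProduct v (S.mulVec (star w)) = 0
  pos : ∀ p, ∀ v ∈ H p, v ≠ 0 → ∃ x : ℝ, 0 < x ∧ Complex.I ^ p * dotProduct v (S.mulVec (star v)) = x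

/-- `g ⊗ g ⊗ ⋯ ⊗ g` applied to the tensor `u` -/
def translate {I : Type} [Fintype I] {q : ℕ} (g : Matrix I I ℚ) (u : (Fin q → I) → ℚ) : (Fin q → I) → ℚ :=
  fun p => ∑ y : Fin q → I, (∏ l, g (p l) (y l)) * u y

/-- `v` as a tensor on `V ⊕ W`, extended by zero -/
def left {I J : Type} {s : ℕ} (v : (Fin s → I) → ℚ) (p : Fin s → I ⊕ J) : ℚ :=
  if h : ∀ a, (p a).isLeft = true then v fun a => (p a).getLeft (h a) else 0

/-- `c` as a tensor on `V ⊕ W`, extended by zero -/
def right {I J : Type} {s : ℕ} (c : (Fin s → J) → ℚ) (p : Fin s → I ⊕ J) : ℚ :=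
  if h : ∀ a, (p a).isRight = true then c fun a => (p a).getRight (h a) else 0

/-- the product of the tensors `v_1, …, v_l` on `V` and of the tensor `c` on `W`, at the places given by `e` -/
def product {I J : Type} {l q : ℕ} {s : Fin l → ℕ} {s₀ : ℕ} (e : (Σ j, Fin (s j)) ⊕ Fin s₀ ≃ Fin q)
    (v : ∀ j, (Fin (s j) → I) → ℚ) (c : (Fin s₀ → J) → ℚ) (p : Fin q → I ⊕ J) : ℚ :=
  (∏ j, left (v j) fun a => p (e (Sum.inl ⟨j, a⟩))) * right c fun a => p (e (Sum.inr a))

/-! ### The theorem -/

/-- an integral matrix as a rational matrix -/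
def toRat {m : ℕ} (γ : Matrix (Fin m) (Fin m) ℤ) : Matrix (Fin m) (Fin m) ℚ := γ.map fun x : ℤ => (x : ℚ)

/-- The integral form `Q` is nondegenerate, alternating or symmetric and indefinite, and all rational isometries of `Q` of
determinant one are symmetries: the Zariski closure of the monodromy group contains the symplectic or the special
orthogonal group of `Q`, for example in Lefschetz pencils with infinite monodromy. -/
structure FullMonodromy {r n : ℕ} (h : Fin r → PowerSeries ℚ) (P : Fin n → Fin n → MvPolynomial (Option (Fin r)) ℂ)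
    (Q : Matrix (Fin n) (Fin n) ℤ) : Prop where
  pos : 0 < n
  det : Q.det ≠ 0
  form : Q.transpose = -Q ∨ (Q.transpose = Q ∧ ∃ x y : Fin n → ℤ, 0 < dotProduct x (Q.mulVec x) ∧ dotProduct y (Q.mulVec y) < 0)
  sym : ∀ γ : Matrix (Fin n) (Fin n) ℚ, γ.transpose * toRat Q * γ = toRat Q → γ.det = 1 → IsSymmetry h P γ

section
variable {k : ℕ} {n : Fin k → ℕ}

/-- the index set of the direct sum of the families -/
abbrev Index (n : Fin k → ℕ) : Type := Σ i : Fin k, Fin (n i)

/-- the action of the matrices `γ_i` on `V ⊕ W`, `V = ⨁ ℚ^(n_i)`, trivial on `W` -/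
def extend (w : ℕ) (γ : ∀ i, Matrix (Fin (n i)) (Fin (n i)) ℚ) : Matrix (Index n ⊕ Fin w) (Index n ⊕ Fin w) ℚ :=
  Matrix.fromBlocks (Matrix.blockDiagonal' γ) 0 0 1

/-- the integral matrices `γ_i` respect the form `S` on `⨁ ℂ^(n_i)` -/
def Respects (S : Matrix (Index n) (Index n) ℂ) (γ : ∀ i, Matrix (Fin (n i)) (Fin (n i)) ℤ) : Prop :=
  (Matrix.blockDiagonal' fun i => (γ i).map fun x : ℤ => (x : ℂ)).transpose * S *
    (Matrix.blockDiagonal' fun i => (γ i).map fun x : ℤ => (x : ℂ)) = S

/-- The rational tensor `v` on `⨁ ℚ^(n_i)` is flat: it is killed by the infinitesimal isometries of the forms `Q_i`, that is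
by the Lie algebra of the monodromy group. -/
def IsFlat (Q : ∀ i, Matrix (Fin (n i)) (Fin (n i)) ℤ) {s : ℕ} (v : (Fin s → Index n) → ℚ) : Prop :=
  ∀ X : ∀ i, Matrix (Fin (n i)) (Fin (n i)) ℚ, (∀ i, (X i).transpose * toRat (Q i) + toRat (Q i) * X i = 0) →
    act (Matrix.blockDiagonal' X).transpose v = 0

/-- the degrees of the generators: `2` (the forms) and the ranks of the symmetric forms (determinants) -/
def Degree (Q : ∀ i, Matrix (Fin (n i)) (Fin (n i)) ℤ) (s : ℕ) : Prop := s = 2 ∨ ∃ i, (Q i).transpose = Q i ∧ s = n i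

/-- All Hodge classes on all tensor powers of `M_t ⊕ W` are generic: (1) they stay Hodge classes under all rational
symmetries of the relations, in particular under the monodromy group acting on the first summand; (2) their orbits
under the integral symmetries which respect a polarisation of `M_t`, in particular under the monodromy group, are finite,
that is, they are fixed by a subgroup of finite index; (3) if the monodromy groups are the full symplectic or orthogonal
groups of forms `Q_i` and `M_t` is polarised by `⨁ c_i Q_i`, they are rational combinations of products of flat Hodge classes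
on `M_t` of degree `2` or `n_i` and of Hodge classes on tensor powers of `W`. -/
def HodgeGeneric {ρ : Fin k → ℕ} {w : ℕ} (h : ∀ i, Fin (ρ i) → PowerSeries ℚ)
    (P : ∀ i, Fin (n i) → Fin (n i) → MvPolynomial (Option (Fin (ρ i))) ℂ) (lev : Index n → ℤ)
    (W : ℤ → Submodule ℂ (Fin w → ℂ)) (t : Fin k → ℕ) : Prop :=
  ∀ H : ℤ → Submodule ℂ (Index n → ℂ), IsFibre lev (Matrix.blockDiagonal' fun i => perMat (h i) (P i) (t i : ℝ)) H →
  ∀ (q : ℕ) (u : (Fin q → Index n ⊕ Fin w) → ℚ), IsHodgeClass (oplus H W) u →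
    (∀ γ : ∀ i, Matrix (Fin (n i)) (Fin (n i)) ℚ, (∀ i, IsSymmetry (h i) (P i) (γ i)) →
      IsHodgeClass (oplus H W) (translate (extend w γ) u)) ∧
    (∀ S : Matrix (Index n) (Index n) ℂ, Polarises S H →
      {x | ∃ γ : ∀ i, Matrix (Fin (n i)) (Fin (n i)) ℤ, (∀ i, IsSymmetry (h i) (P i) (toRat (γ i))) ∧ Respects S γ ∧
        x = translate (extend w fun i => toRat (γ i)) u}.Finite) ∧
    ∀ Q : ∀ i, Matrix (Fin (n i)) (Fin (n i)) ℤ, (∀ i, FullMonodromy (h i) (P i) (Q i)) →
      ∀ c : Fin k → ℂ, (∀ i, c i ≠ 0) → Polarises (Matrix.blockDiagonal' fun i => c i • (Q i).map fun x : ℤ => (x : ℂ)) H →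
      u ∈ Submodule.span ℚ {x | ∃ (l : ℕ) (s : Fin l → ℕ) (s₀ : ℕ) (e : (Σ j, Fin (s j)) ⊕ Fin s₀ ≃ Fin q)
        (v : ∀ j, (Fin (s j) → Index n) → ℚ) (y : (Fin s₀ → Fin w) → ℚ),
        (∀ j, Degree Q (s j) ∧ IsFlat Q (v j) ∧ IsHodgeClass H (v j)) ∧ IsHodgeClass W y ∧ x = product e v y}

end

theorem iter_eq {r : ℕ} (T : Polynomial ℤ) (A : Fin r → Fin r → Polynomial ℤ) (s : ℕ) :
    iter T A s = Pool.Agent.Y120.GH.itm T A s := by
  induction s with
  | zero => rfl
  | succ s ih =>
    funext i j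
    rw [iter, Pool.Agent.Y120.GH.itm, ih]

theorem qu_eq {r : ℕ} {T : Polynomial ℤ} {A : Fin r → Fin r → Polynomial ℤ} (h : QuasiUnipotent T A) :
    Pool.Agent.Y120.GH.QU0 T A := by
  obtain ⟨e, M, K, Φ, he, hdet, hc, heq⟩ := h
  have he0 : e ≠ 0 := by omega
  refine ⟨e, he0, M, K, Φ, hc, fun i j n => ?_, hdet⟩
  have h1 := heq i j n
  simp only [atPow] at h1
  rw [Pool.Agent.Y120.GH.expand_poly he0]
  simp only [Pool.Agent.Y120.GH.expand_poly he0]
  exact h1

theorem fam {r : ℕ} {T : Polynomial ℤ} {A : Fin r → Fin r → Polynomial ℤ} {h : Fin r → PowerSeries ℚ}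
    (hG : GFamily T A h) (δ : ℕ) : Pool.Agent.Y120.R.Fam δ h :=
  ⟨hG.size, Pool.Agent.Y120.GH.family_main hG.T_ne hG.ode hG.size hG.den (by
    obtain ⟨C, hC⟩ := hG.galochkin
    refine ⟨C, fun m => ?_⟩
    obtain ⟨d, h1, h2, h3⟩ := hC m
    refine ⟨d, h1, h2, fun s hs i' j' => ?_⟩
    rw [← iter_eq]
    exact h3 s hs i' j') (qu_eq hG.regular) δ⟩

theorem act_eq {I : Type} [Fintype I] {q : ℕ} (X : Matrix I I ℂ) (u : (Fin q → I) → ℂ) :
    act X u = Q207.HT.lieA X.transpose u := by
  funext p
  unfold act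
  rw [Q207.HT.lieA_apply]
  exact Finset.sum_congr rfl fun l _ => Finset.sum_congr rfl fun y _ => mul_comm _ _

theorem sym_of {r n : ℕ} {h : Fin r → PowerSeries ℚ} {P : Fin n → Fin n → MvPolynomial (Option (Fin r)) ℂ}
    {γ : Matrix (Fin n) (Fin n) ℚ} (hγ : IsSymmetry h P γ) :
    ∃ g ∈ Pool.Agent.Y123.GN.Gs h P, (g : Matrix (Fin n) (Fin n) ℂ) = Q207.HG.cmx γ := by
  obtain ⟨h1, h2, h3⟩ := hγ
  have hmul : ∀ X Y : Matrix (Fin n) (Fin n) ℚ, Q207.HG.cmx (X * Y) = Q207.HG.cmx X * Q207.HG.cmx Y := fun X Y => Matrix.map_mul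
  have hone : Q207.HG.cmx (1 : Matrix (Fin n) (Fin n) ℚ) = 1 := Matrix.map_one _ (map_zero _) (map_one _)
  exact ⟨⟨Q207.HG.cmx γ, Q207.HG.cmx γ⁻¹, by rw [← hmul, Matrix.mul_nonsing_inv _ h1, hone],
    by rw [← hmul, Matrix.nonsing_inv_mul _ h1, hone]⟩, ⟨h2, h3⟩, rfl⟩

/-- Let `h_i`, `1 ≤ i ≤ k`, be families of G-functions over `ℚ` (with the conditions of Siegel and Galochkin, regular singular
with rational exponents at `0`), and let `P_i(x)` be square matrices whose entries are polynomials of degree at most `e` with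
arbitrary complex coefficients in `log x` and in the functions `h_{i,l}(x)`: the period matrices of the cohomology of families
`X_{i,x}` of smooth projective varieties over an open part of the line, near any rational point `x = 0`, where the family
may degenerate. Let `M_t` be the Hodge structure `⨁ H^*(X_{i,1/t_i})` with these periods.

For every `w` there are `c > 0` and `C₀`, depending only on `w`, `e`, the `h_i` and the ranks, such that for all such `P_i`, all
levels and all Hodge structures `W` of dimension `w` all but `C₀ N^(k-1) ∑_i (1 + N / (x_i + N)^c)` integral points `t` of each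
box `∏_i (x_i, x_i + N]` have the following property: all Hodge classes on all tensor powers of `M_t ⊕ W` stay Hodge classes under
the monodromy group and have finite orbits under it; if the monodromy groups are full symplectic or orthogonal groups they are
generated by flat Hodge classes on `M_t` of degree `2` or `n_i` and by the Hodge classes on the tensor powers of `W`. -/
theorem result (k e w : ℕ) (ρ n : Fin k → ℕ) (T : Fin k → Polynomial ℤ)
    (A : ∀ i, Fin (ρ i) → Fin (ρ i) → Polynomial ℤ) (h : ∀ i, Fin (ρ i) → PowerSeries ℚ)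
    (hG : ∀ i, GFamily (T i) (A i) (h i)) :
    ∃ c C₀ : ℝ, 0 < c ∧ ∀ P : ∀ i, Fin (n i) → Fin (n i) → MvPolynomial (Option (Fin (ρ i))) ℂ,
      (∀ i a b, (P i a b).totalDegree ≤ e) → ∀ (lev : Index n → ℤ) (W : ℤ → Submodule ℂ (Fin w → ℂ)), IsHodge W →
      ∀ (x : Fin k → ℕ) (N : ℕ), 1 ≤ N →
      (({t : Fin k → ℕ | (∀ i, x i < t i ∧ t i ≤ x i + N) ∧ ¬ HodgeGeneric h P lev W t}.ncard : ℕ) : ℝ) ≤
        C₀ * (N : ℝ) ^ (k - 1) * ∑ i, (1 + N / ((x i : ℝ) + N) ^ c) := by
  classical
  obtain ⟨c, C₀, hc, -, hmain⟩ := Q207.GH.cnt (n := n) w e h fun i δ => fam (hG i) δ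
  refine ⟨c, C₀, hc, fun P hP lev W hW x N hN => ?_⟩
  obtain ⟨CW, levW, hCW, hmem⟩ := Pool.Agent.Q195.HT.adaptedI hW.sum
  obtain ⟨ΦW, hΦW⟩ := Q207.GH.ex_oper hW.sum
  set E := {t : Fin k → ℕ | (∀ i, x i < t i ∧ t i ≤ x i + N) ∧ ¬ HodgeGeneric h P lev W t} with hE
  have hfin : E.Finite := by
    refine (Set.finite_Iic (fun i : Fin k => x i + N)).subset ?_
    intro t ht i
    exact (ht.1 i).2
  rw [Set.ncard_eq_toFinset_card E hfin]
  refine hmain P hP (Matrix.fromBlocks 1 0 0 CW) x N hN _ fun t ht => ?_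
  obtain ⟨hbox, hgen⟩ := hfin.mem_toFinset.1 ht
  refine ⟨hbox, fun hgood => hgen ?_⟩
  intro H hH q u hu
  obtain ⟨Φ, hΦ⟩ := Q207.GH.ex_oper (Q207.GH.op_int hH.hodge.sum hW.sum)
  have huni : ∀ Φ', IsOperator (oplus H W) Φ' → Φ' = Φ := by
    intro Φ' hΦ'
    have htop : (⨆ p, oplus H W p) = ⊤ := (Q207.GH.op_int hH.hodge.sum hW.sum).submodule_iSup_eq_top
    have h1 : ∀ v : Index n ⊕ Fin w → ℂ, Matrix.vecMul v Φ' = Matrix.vecMul v Φ := by
      intro v
      have hv : v ∈ (⨆ p, oplus H W p) := by rw [htop]; exact Submodule.mem_top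
      induction hv using Submodule.iSup_induction' with
      | mem p v hv =>
        rw [hΦ' p v hv]
        exact (hΦ p v hv).symm
      | zero => rw [Matrix.zero_vecMul, Matrix.zero_vecMul]
      | add v w _ _ h1 h2 => rw [Matrix.add_vecMul, Matrix.add_vecMul, h1, h2]
    ext a b
    have h2 := congrFun (h1 (Pi.single a 1)) b
    rw [Matrix.single_one_vecMul, Matrix.single_one_vecMul] at h2
    exact h2
  have hu1 : Q207.HT.lieA Φ.transpose (Q207.HT.qc u) = 0 := by
    rw [← act_eq]
    exact hu Φ hΦ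
  have hmove : ∀ γ : ∀ i, Matrix (Fin (n i)) (Fin (n i)) ℚ, Q207.GH.InG h P γ →
      Q207.HT.lieA Φ.transpose (Q207.HT.qc (Q207.GH.trl (Q207.GH.hat w γ) u)) = 0 := fun γ hγ =>
    Q207.GH.move Q207.GH.cnj hW.sum hW.conj hCW hmem hΦW hgood hH.hodge.sum hH.hodge.conj
      (fun p => hH.fil p) hΦ hu1 hγ
  have horb : ∀ S : Matrix (Index n) (Index n) ℂ, Polarises S H →
      {x | ∃ γ : ∀ i, Matrix (Fin (n i)) (Fin (n i)) ℤ, (∀ i, IsSymmetry (h i) (P i) (toRat (γ i))) ∧ Respects S γ ∧
        x = translate (extend w fun i => toRat (γ i)) u}.Finite := fun S hS => by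
    refine (Q207.GH.orbit Q207.GH.orb hW.sum hH.hodge.sum (S := S) ⟨hS.orth, hS.pos⟩ hΦ hmove).subset ?_
    rintro _ ⟨γ, hγ, hS2, rfl⟩
    exact ⟨γ, fun i => sym_of (hγ i), hS2, rfl⟩
  refine ⟨fun γ hγ Φ' hΦ' => ?_, horb, fun Q hQ c' hc' hpol => ?_⟩
  · rw [huni Φ' hΦ', act_eq]
    exact hmove γ fun i => sym_of (hγ i)
  · obtain ⟨ΦH, hΦH⟩ := Q207.GH.ex_oper hH.hodge.sum
    have hop : IsOperator (oplus H W) (Matrix.fromBlocks ΦH 0 0 ΦW) := Q207.GH.op_oper hΦH hΦW
    have hΦeq : Φ = Matrix.fromBlocks ΦH 0 0 ΦW := (huni _ hop).symm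
    have hpol' : Q207.GH.Pol H (Matrix.blockDiagonal' fun i => c' i • Q207.GH.ic (Q i)) := ⟨hpol.orth, hpol.pos⟩
    have hCl : ∀ i, Q207.GH.Cl (Q i) := fun i => ⟨(hQ i).pos, (hQ i).det, (hQ i).form⟩
    have hflat : ∀ (s : ℕ) (v : (Fin s → Index n) → ℚ), Q207.GH.Fl Q (Q207.HT.qc v) ↔ IsFlat Q v := by
      intro s v
      refine forall_congr' fun X => imp_congr_right fun _ => ?_
      rw [Q207.GH.lie_cast]
      constructor
      · intro h1
        funext p
        refine Eq.trans ?_ (h1 p)
        exact Finset.sum_congr rfl fun l _ => Finset.sum_congr rfl fun y _ => mul_comm _ _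
      · intro h1 p
        refine Eq.trans ?_ (congrFun h1 p)
        exact Finset.sum_congr rfl fun l _ => Finset.sum_congr rfl fun y _ => mul_comm _ _
    have hfl : ∀ (s : ℕ) (v : (Fin s → Index n) → ℚ), Q207.GH.Fl Q (Q207.HT.qc v) →
        Q207.HT.lieA ΦH.transpose (Q207.HT.qc v) = 0 := fun s v hv =>
      Q207.GH.fl_hodge hCl hc' hH.hodge.sum hH.hodge.conj (lev := lev)
        (Z := (Matrix.blockDiagonal' fun i => perMat (h i) (P i) (t i : ℝ)).transpose)
        (Q207.GH.det_of_fil hH.hodge.sum fun p => hH.fil p) (by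
          rintro ⟨i, a⟩ ⟨j, b⟩ hij
          rw [Matrix.transpose_apply, Matrix.blockDiagonal'_apply_ne _ _ _ (fun h6 => hij h6.symm)]) (fun p => hH.fil p)
        hΦH hpol' v hv
    obtain ⟨K, hK⟩ := Q207.GH.bounded (Q := Q) hW.sum hH.hodge.sum hpol' hΦ (u := u) fun γ hγ =>
      hmove γ fun i => sym_of ((hQ i).sym (γ i) (hγ i).1 (hγ i).2)
    have hgen := Q207.GH.gen_cl hCl hK (ΦV := ΦH.transpose) (ΦW := ΦW.transpose) (by
      have h4 : Matrix.fromBlocks ΦH.transpose 0 0 ΦW.transpose = Φ.transpose := by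
        rw [hΦeq, Matrix.fromBlocks_transpose, Matrix.transpose_zero, Matrix.transpose_zero]
      rw [h4]
      exact hu1) hfl
    have huniq : ∀ {I : Type} [Fintype I] [DecidableEq I] {F : ℤ → Submodule ℂ (I → ℂ)} (_ : (⨆ p, F p) = ⊤)
        {Φ₁ Φ₂ : Matrix I I ℂ} (_ : IsOperator F Φ₁) (_ : IsOperator F Φ₂), Φ₁ = Φ₂ := by
      intro I _ _ F hF Φ₁ Φ₂ h1 h2
      ext a b
      have h8 : ∀ x : I → ℂ, Matrix.vecMul x Φ₁ = Matrix.vecMul x Φ₂ := by
        intro x
        have hx : x ∈ (⨆ p, F p) := by rw [hF]; exact Submodule.mem_top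
        induction hx using Submodule.iSup_induction' with
        | mem p v hv =>
          rw [h1 p v hv]
          exact (h2 p v hv).symm
        | zero => rw [Matrix.zero_vecMul, Matrix.zero_vecMul]
        | add v w _ _ h1 h2 => rw [Matrix.add_vecMul, Matrix.add_vecMul, h1, h2]
      have h9 := congrFun (h8 (Pi.single a 1)) b
      rw [Matrix.single_one_vecMul, Matrix.single_one_vecMul] at h9
      exact h9
    refine Submodule.span_mono ?_ hgen
    rintro _ ⟨l, s, s₀, e, v, y, hv, hy, rfl⟩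
    refine ⟨l, s, s₀, e, v, y, fun j => ⟨(hv j).1, (hflat _ _).1 (hv j).2, fun Φ' hΦ' => ?_⟩, fun Φ' hΦ' => ?_, rfl⟩
    · rw [huniq hH.hodge.sum.submodule_iSup_eq_top hΦ' hΦH, act_eq]
      exact hfl _ _ (hv j).2
    · rw [huniq hW.sum.submodule_iSup_eq_top hΦ' hΦW, act_eq]
      exact hy

end Pool.Agent.Results.MP_4e1cf2_ag.FamiliesTimesVarieties
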