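import Pool.Agent.Q60.FI.AbsL

/-!
# If the Hodge classes on the fourth power are absolutely Hodge, then so is a positive proportion of
# the Hodge classes on all powers

Let `X` be a smooth projective complex variety with total Betti number `b`, and let the centre of
the algebra of the endomorphisms of `H(X)` given by Hodge classes on `X × X` be a product of totally
real fields (there is no complex multiplication in the centre). Suppose that all Hodge classes on
`X ^ 4` are absolutely Hodge. Then there is a natural number `N ≤ 4 ^ (b ^ 2)` such that:

* the quotient of the number of linearly independent Hodge classes on `X ^ n` and of the number of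
  linearly independent absolutely Hodge classes on `X ^ n` tends to `N`, and it is at most
  `4 ^ (b ^ 2)` for all even `n`: at least the part `4 ^ (- b ^ 2)` of the Hodge classes on all these
  powers is absolutely Hodge;
* `N = 1` if and only if all Hodge classes on all powers of `X` are absolutely Hodge;
* for every conjugate theory there are `N` elements of the product of all coefficient fields
  (`ℂ × ∏ ℚ_ℓ`) which span a ring over `ℚ`, such that all comparison isomorphisms map every Hodge
  class on every power of `X` to a linear combination of Hodge classes with these coefficients.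

The theorem is proved for the varieties of an arbitrary class of smooth projective varieties which
is stable under products, an arbitrary Hodge theory `T` on this class and arbitrary conjugate
theories with comparison isomorphisms.
-/

open CategoryTheory AlgebraicGeometry Filter Topology

open scoped ENNReal

universe u

namespace Pool.Agent.Results.MP_4e1cf2_ag.FourthPowerIndex

open Pool.Agent.H914
open Pool.Agent.Y121.AHS (HodgeTheory IsHodge hodgeDim)
open Pool.Agent.Y121.AHS.Full (Conjugates IsAbsHodge absDim SpansRing GivenBy)
open Pool.Agent.Y133.Half (pw)
open Pool.Agent.Q60.FI (Polarisable TotallyRealCentre)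

variable {k : Type u} [Field k] {𝒱 : VarClass k} {ops : CycleOps 𝒱}

/-- All Hodge classes on `Y` are absolutely Hodge. -/
def AllAbs {T : HodgeTheory ops} (D : Conjugates T) (Y : 𝒱.Obj) : Prop :=
  ∀ j c, IsHodge T Y j c → IsAbsHodge D Y j c

/-- The number of linearly independent Hodge classes on the product of `n + 1` copies of `X`,
divided by the number of linearly independent absolutely Hodge classes. -/
noncomputable def ratio {T : HodgeTheory ops} (D : Conjugates T) (X : 𝒱.Obj) (n : ℕ) : ℝ≥0∞ :=
  (hodgeDim T (pw X n) : ℝ≥0∞) / absDim D (pw X n)

/-- There are `N` elements `e` of the product of the coefficient fields, spanning a ring, such that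
all comparison isomorphisms for the conjugate theory with index `i` map every Hodge class on every
power of `X` to a linear combination of Hodge classes with the coefficients `e`. -/
def CoefficientRing {T : HodgeTheory ops} (D : Conjugates T) (X : 𝒱.Obj) (N : ℕ) (i : D.ι) :
    Prop :=
  ∃ e : Fin N → ∀ a, D.L i a, SpansRing e ∧ ∀ n j, GivenBy D i e (pw X n) j

/-- **The fourth power bounds the index of the absolutely Hodge classes**: `pw X n` is the product
of `n + 1` copies of `X`. -/
theorem result (T : HodgeTheory ops) (D : Conjugates T) (X : 𝒱.Obj) [Nontrivial (T.W.H X)]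
    (b : ℕ) (hb : Module.finrank T.W.K (T.W.H X) = b)
    (hp : Polarisable T X) (hc : TotallyRealCentre T X) (h4 : AllAbs D (pw X 3)) :
    (∀ n, ratio D X (2 * n + 1) ≤ 4 ^ (b ^ 2)) ∧
    ∃ N : ℕ, 1 ≤ N ∧ N ≤ 4 ^ (b ^ 2) ∧ Tendsto (ratio D X) atTop (𝓝 (N : ℝ≥0∞)) ∧
      (N = 1 ↔ ∀ n, AllAbs D (pw X n)) ∧ ∀ i, CoefficientRing D X N i := by
  subst hb
  obtain ⟨N, h1, h2, h3, h5, h6, -⟩ := Pool.Agent.Q60.FI.abs_index hp hc h4
  refine ⟨fun n => ?_, N, h1, h2, ?_, h5, h6⟩
  · refine ENNReal.div_le_of_le_mul ?_
    exact_mod_cast Pool.Agent.Q60.FI.abs_bound hp hc h4 n
  · unfold Pool.Agent.Y121.AHS.Full.HasIndex at h3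
    rw [ENat.toENNReal_coe] at h3
    exact h3

end Pool.Agent.Results.MP_4e1cf2_ag.FourthPowerIndex
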