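import Pool.Agent.Q138.PS.VJ
import Pool.Agent.Results.MP_4e1cf2_ag.ArbitraryFactor

/-!
# Hodge classes on `Z^j × ∏ X_{1/t_i}^{r_i}`, all tuples of integers `t_i` close to `α P(n)`

Let `q ≥ 2`. We consider countably many hypergeometric variations of Hodge structure with a rational structure, as in the
starting file `ArbitraryFactor` (for example the mirrors of the Calabi-Yau hypersurfaces in the projective spaces), and
countably many rational vector spaces `W = ℚ^d` with a grading of the complexification (for example the cohomology of all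
smooth projective varieties `Z` defined over the algebraic numbers). For every variation there is a number `G ≥ 1` such that
outside a set of real numbers of Hausdorff dimension at most `q / (q + 1 / (q 2 ^ (q - 1)))` (that is `8 / 9` for `q = 2`) every
`α > 0` has the following property. There is `η > 0` such that for ALL the variations and ALL the spaces `W` there is `κ > 0` such
that for all large `N` and ALL integral polynomials `P` of degree `q` with positive leading coefficient and coefficients of
size at most `N ^ η`: for all but `N ^ (1 - κ)` of the `n ≤ N`, for ALL `k` and ALL distinct integers `t_1, …, t_k` in one residue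
class modulo `G` with `|t_i - ⌊α P(n)⌋| ≤ N ^ κ` and the fibres `V_i` of the variation at `z = 1 / t_i`: all rational tensors of
type `p` in `V_{c 1} ⊗ ⋯ ⊗ V_{c r} ⊗ W^{⊗ j}` (all `r`, `c`, `j`, `p`) are combinations of products of the polarisations of the
`V_i` and of rational tensors in `W^{⊗ j}` of the complementary type.
-/

set_option autoImplicit false

namespace Pool.Agent.Results.MP_4e1cf2_ag.HodgeWindowsAlongRealMultiples

open Finset Filter Topology
open Pool.Agent.Q138.PS
open ArbitraryFactor (RationalStructure IsFibre OnlyProducts)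

/-- a hypergeometric variation with a rational structure -/
structure Variation where
  /-- half of the rank -/
  m : ℕ
  /-- the parameters -/
  β : Fin m → ℚ
  /-- the base change from the Frobenius basis to rational coordinates -/
  C : Matrix (Fin (2 * m)) (Fin (2 * m)) ℂ
  /-- the polarisation -/
  A : Matrix (Fin (2 * m)) (Fin (2 * m)) ℚ
  hm : 2 ≤ m
  hβ : ∀ j, 0 < β j ∧ β j < 1
  hC : RationalStructure C A

/-- a rational vector space `ℚ^d` with a grading of its complexification -/
structure Graded where
  /-- the dimension -/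
  d : ℕ
  /-- the grading -/
  U : ℤ → Submodule ℂ (Fin d → ℂ)
  hU : DirectSum.IsInternal U

/-- for all `k`, all distinct `t_1, …, t_k` in `S` and all Hodge structures which are the fibres of the variation at the points
`z = 1 / t_i` all tensors are products -/
def AllProducts (B : Variation) (W : Graded) (S : Set ℕ) : Prop :=
  ∀ (k : ℕ) (t : Fin k → ℕ), Function.Injective t → (∀ i, t i ∈ S) →
    ∀ V : Fin k → ℕ → Submodule ℂ (Fin (2 * B.m) → ℂ), (∀ i, IsFibre B.β (t i) B.C B.A (V i)) → OnlyProducts B.A V W.U

theorem mono (B : Variation) (W : Graded) (S S' : Set ℕ) (h : S ⊆ S') (h' : AllProducts B W S') : AllProducts B W S :=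
  fun k t ht htS => h' k t ht fun i => h (htS i)

/-- **Theorem.** -/
theorem result (q : ℕ) (hq : 2 ≤ q) {ι ι' : Type} [Countable ι] [Countable ι'] (B : ι → Variation) (W : ι' → Graded) :
    ∃ G : ι → ℕ, (∀ i, 1 ≤ G i) ∧
    ∃ E : Set ℝ, dimH E ≤ ENNReal.ofReal (q / (q + 1 / ((q : ℝ) * 2 ^ (q - 1)))) ∧ ∀ α : ℝ, 0 < α → α ∉ E →
      ∃ η : ℝ, 0 < η ∧ ∀ (i : ι) (i' : ι'),
      ∃ κ : ℝ, 0 < κ ∧ ∀ᶠ N : ℕ in atTop, ∀ P : Polynomial ℤ, P.natDegree = q → 0 < P.leadingCoeff →
        (∀ j, |((P.coeff j : ℤ) : ℝ)| ≤ (N : ℝ) ^ η) →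
        (badG (fun S => ∀ a : ℕ, AllProducts (B i) (W i') (S ∩ {t | t % G i = a % G i})) ⌊(N : ℝ) ^ κ⌋₊ α P N : ℝ) ≤
          (N : ℝ) ^ (1 - κ) := by
  classical
  choose G₀ hG₀ using fun i => (ArbitraryFactor.result (B i).hm (B i).β (B i).hβ).1
  refine ⟨fun i => G₀ i + 1, fun i => Nat.succ_pos _, ?_⟩
  choose E₁ hE₁ using fun i => hG₀ i (G₀ i + 1) (by omega)
  obtain ⟨E, hE, hg⟩ := win_tuples (ι := ι × ι') q hq
    (fun i S => ∀ a : ℕ, AllProducts (B i.1) (W i.2) (S ∩ {t | t % (G₀ i.1 + 1) = a % (G₀ i.1 + 1)}))
    (fun i S S' hS hS' a => mono _ _ _ _ (Set.inter_subset_inter_left _ hS) (hS' a))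
  refine ⟨E, hE, fun α hα hαE => ?_⟩
  obtain ⟨η, hη, h1⟩ := hg α hα hαE
  refine ⟨η, hη, fun i i' => ?_⟩
  obtain ⟨M, c, hc, h2⟩ := step_down (G₀ i + 1) (by omega) (AllProducts (B i) (W i')) (mono _ _) (E₁ i)
    (((B i).m + 2) + (W i').d ^ 2) (fun H t ht => by
      obtain ⟨-, h3⟩ := hE₁ i H t ht
      obtain ⟨S, hS, h4⟩ := h3 (B i).C (B i).A (B i).hC
      obtain ⟨S', hS', h5⟩ := h4 (W i').d (W i').U (W i').hU
      refine ⟨S ∪ S', (card_union_le _ _).trans (Nat.add_le_add hS ?_), ?_⟩
      · refine le_trans (Nat.le_mul_of_pos_right _ ?_) hS'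
        have := (B i).hm
        positivity
      · intro k s hs hsS V hV
        choose u hu1 hu2 hu3 hu4 using hsS
        refine h5 k u (fun a b hab => hs ?_) (fun j => ⟨hu1 j, hu2 j, ?_, ?_⟩) V fun j => ?_
        · have ha := hu4 a
          have hb := hu4 b
          rw [hab] at ha
          omega
        · exact fun hmem => hu3 j (mem_union_left _ hmem)
        · exact fun hmem => hu3 j (mem_union_right _ hmem)
        · have : t - (G₀ i + 1) * u j = s j := by
            have := hu4 j
            omega
          rw [this]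
          exact hV j)
  exact h1 (i, i') M c hc h2

end Pool.Agent.Results.MP_4e1cf2_ag.HodgeWindowsAlongRealMultiples
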