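import Pool.Agent.Q271.ZG.Hc
import Pool.Agent.Q271.ZG.All

/-!
# Whether the Hodge classes on the powers of a variety are absolutely Hodge is decided by one
# explicit power

Let `X` be a smooth projective complex variety and let `b` be its total Betti number. Let
`N ≥ exp (64 b ^ (2/3) log (2 b))` in general, and `N ≥ b ^ 3` if the centre of the algebra of the
endomorphisms of `H(X)` given by Hodge classes on `X × X` is a product of totally real fields, that
is if there is no complex multiplication in this centre.

* If all Hodge classes on the single variety `X ^ N` are absolutely Hodge, then all Hodge classes on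
  all powers of `X` are absolutely Hodge.
* Let `ε > 0` and let `n ≥ (2 b) ^ (3 N + 3) / ε ^ 2`. If the space of the absolutely Hodge classes
  on `X ^ n` has a dimension greater than `1 / 2 + ε` times the dimension of the space of the Hodge
  classes on `X ^ n`, then all Hodge classes on all powers of `X` are absolutely Hodge.

The bounds depend on nothing but the total Betti number of `X`; the bound `b ^ 3` is a polynomial in
it and the general bound is subexponential.

The theorem is proved for the varieties of an arbitrary class of smooth projective varieties which
is stable under products, an arbitrary Hodge theory `T` on this class for which `H(X)` is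
polarisable, and arbitrary conjugate theories with comparison isomorphisms. In the intended use the
varieties are all smooth projective complex varieties, `T` is `X ↦ H(X, ℚ)`, the conjugate theories
are `X ↦ H(X^σ, ℚ)` for the automorphisms `σ` of `ℂ`, and the comparison isomorphisms are given by
de Rham cohomology and by `ℓ`-adic cohomology for all primes `ℓ`. If only the de Rham comparison, or
only the `ℓ`-adic one, is used, one obtains the corresponding statement for the weaker notion.
-/

open CategoryTheory AlgebraicGeometry

universe u

namespace Pool.Agent.Results.MP_4e1cf2_ag.OnePowerDecides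

open Pool.Agent.H914
open Pool.Agent.Y121.AHS (HodgeTheory IsHodge hodgeDim)
open Pool.Agent.Y121.AHS.Full (Conjugates IsAbsHodge absDim)
open Pool.Agent.Q60.FI (Polarisable TotallyRealCentre)

variable {k : Type u} [Field k] {𝒱 : VarClass k} {ops : CycleOps 𝒱}

/-- All Hodge classes on `Y` are absolutely Hodge. -/
def AllAbs {T : HodgeTheory ops} (D : Conjugates T) (Y : 𝒱.Obj) : Prop :=
  ∀ j c, IsHodge T Y j c → IsAbsHodge D Y j c

/-- The product of `n` copies of `X`, for `n ≥ 1`. -/
noncomputable def power (X : 𝒱.Obj) (n : ℕ) : 𝒱.Obj := Pool.Agent.Y133.Half.pw X (n - 1)

/-- **One explicit power decides whether the Hodge classes on all powers are absolutely Hodge**,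
with a subexponential bound in the total Betti number, and a polynomial bound if the centre of the
algebra of the Hodge endomorphisms is totally real. -/
theorem result (T : HodgeTheory ops) (D : Conjugates T) (X : 𝒱.Obj) (hp : Polarisable T X)
    (b N : ℕ) (hb : Module.finrank T.W.K (T.W.H X) = b)
    (hN : Real.exp (64 * (b : ℝ) ^ (2 / 3 : ℝ) * Real.log (2 * b)) ≤ N ∨
      b ^ 3 ≤ N ∧ TotallyRealCentre T X) :
    (AllAbs D (power X N) → ∀ n, AllAbs D (power X n)) ∧
    ∀ ε : ℝ, 0 < ε → ∀ n : ℕ, (2 * b : ℝ) ^ (3 * N + 3) / ε ^ 2 ≤ n →
      (1 / 2 + ε) * hodgeDim T (power X n) < absDim D (power X n) →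
      ∀ m, AllAbs D (power X m) :=
  Pool.Agent.Q271.ZG.abs_powers' Pool.Agent.Q271.ZG.jobs T D X hp hb hN

end Pool.Agent.Results.MP_4e1cf2_ag.OnePowerDecides
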